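import Pool.Agent.Y601.MMX.Exp

/-!
# Regularity of the arithmetic complexity of matrix multiplication: one value suffices

The definitions of `M(n)` (`RatFun`, `entryA`, `entryB`, `const`, `IsOperand`, `IsProgram`,
`ComputesProduct`, `M`) are those of the starting result, in `Pool.Agent.H563R2.MMDefs`; `exponent`
and `IsSum` are defined in `Pool.Agent.Y601.MMX.Exp`.

Let `ω` be the exponent of matrix multiplication over the field `K` (the infimum of all `τ` with
`M(n) = O(n^τ)`). For every single `n`, every straight-line program for the product of `n × n`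
matrices has at least `n^ω - n²` additions and subtractions and at least `n^ω / 2` multiplications
and divisions; hence `M(n) ≥ (3/2) n^ω - n²`. So one value `M(n) < (3/2) n^τ - n²` with `n ≥ 2`
implies that `M(N) < N^(τ - δ)` for some `δ > 0` and all large `N`.

Idea: the starting library bounds the rank of the matrix multiplication tensor over the field of
rational functions by the number of additive steps plus `n²` and by twice the number of the other
steps. The rank over every extension field is at least `n^ω` (Kronecker powers, descent of the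
field, recursion; and rank at least `n²` in case `ω = 2`).
-/

set_option autoImplicit false

open Filter

universe u

namespace Pool.Agent.Results.MP_f57c03_lc.OneValueSuffices

open H563R2.MM Pool.Agent.Y601.MMX

/-- Let `K` be a field and `ω = exponent K` the infimum of the `τ` with `M(n) = O(n^τ)`.
(1) For every `n`, every straight-line program which computes the product of two `n × n` matrices
has at least `n^ω - n²` additions and subtractions, and at least `n^ω / 2` other steps.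
(2) `M(n) ≥ (3/2) n^ω - n²` for every `n`.
(3) If `M(n) < (3/2) n^τ - n²` for one `n ≥ 2`, then there is `δ > 0` with `M(N) < N^(τ - δ)` for all
large `N`.
(4) For every real `τ`, the following are equivalent: `ω < τ`; `M(n) < n^τ` for infinitely many
`n`; `M(n) < n^τ` for all large `n`; there is `δ > 0` with `M(n) < n^(τ - δ)` for all large `n`.
(5) (The question.) If `M(n) < n^τ` for infinitely many `n`, then `M(n) < n^τ log n` for all large
`n`. -/
theorem result (K : Type u) [Field K] :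
    (∀ (n m : ℕ) (g : Fin m → RatFun K n), IsProgram g → ComputesProduct g →
      (n : ℝ) ^ exponent K - (n : ℝ) ^ 2 ≤ Nat.card {t : Fin m // IsSum g t} ∧
      (n : ℝ) ^ exponent K / 2 ≤ Nat.card {t : Fin m // ¬ IsSum g t}) ∧
    (∀ n : ℕ, 3 / 2 * (n : ℝ) ^ exponent K - (n : ℝ) ^ 2 ≤ M K n) ∧
    (∀ (τ : ℝ) (n : ℕ), 2 ≤ n → (M K n : ℝ) < 3 / 2 * (n : ℝ) ^ τ - (n : ℝ) ^ 2 →
      ∃ δ : ℝ, 0 < δ ∧ ∃ N₀ : ℕ, ∀ N : ℕ, N₀ ≤ N → (M K N : ℝ) < (N : ℝ) ^ (τ - δ)) ∧
    (∀ τ : ℝ, List.TFAE [exponent K < τ,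
      {n : ℕ | (M K n : ℝ) < (n : ℝ) ^ τ}.Infinite,
      ∃ N₀ : ℕ, ∀ n : ℕ, N₀ ≤ n → (M K n : ℝ) < (n : ℝ) ^ τ,
      ∃ δ : ℝ, 0 < δ ∧ ∃ N₀ : ℕ, ∀ n : ℕ, N₀ ≤ n → (M K n : ℝ) < (n : ℝ) ^ (τ - δ)]) ∧
    (∀ τ : ℝ, {n : ℕ | (M K n : ℝ) < (n : ℝ) ^ τ}.Infinite →
      ∃ N₀ : ℕ, ∀ n : ℕ, N₀ ≤ n → (M K n : ℝ) < (n : ℝ) ^ τ * Real.log n) := by
  have hδ : ∀ τ : ℝ, exponent K < τ →
      ∃ δ : ℝ, 0 < δ ∧ ∃ N₀ : ℕ, ∀ N : ℕ, N₀ ≤ N → (M K N : ℝ) < (N : ℝ) ^ (τ - δ) := by
    intro τ h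
    obtain ⟨δ, h1, h2⟩ := eventually_of_exponent_lt h
    exact ⟨δ, h1, eventually_atTop.1 h2⟩
  have hev : ∀ τ : ℝ, (∃ δ : ℝ, 0 < δ ∧ ∃ N₀ : ℕ, ∀ n : ℕ, N₀ ≤ n →
      (M K n : ℝ) < (n : ℝ) ^ (τ - δ)) →
      ∃ N₀ : ℕ, ∀ n : ℕ, N₀ ≤ n → (M K n : ℝ) < (n : ℝ) ^ τ := by
    rintro τ ⟨δ, h1, N₀, h2⟩
    refine ⟨max N₀ 1, fun n hn => (h2 n (le_of_max_le_left hn)).trans_le ?_⟩
    have hn1 : (1 : ℝ) ≤ n := by exact_mod_cast le_of_max_le_right hn
    exact Real.rpow_le_rpow_of_exponent_le hn1 (by linarith)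
  have hinf : ∀ τ : ℝ, (∃ N₀ : ℕ, ∀ n : ℕ, N₀ ≤ n → (M K n : ℝ) < (n : ℝ) ^ τ) →
      {n : ℕ | (M K n : ℝ) < (n : ℝ) ^ τ}.Infinite := by
    rintro τ ⟨N₀, h⟩
    exact Nat.frequently_atTop_iff_infinite.1 (eventually_atTop.2 ⟨N₀, h⟩).frequently
  refine ⟨fun n m g hg hc => steps g hg hc, M_ge, fun τ n hn h => hδ τ (exponent_lt_of_one hn h),
    ?_, ?_⟩
  · intro τ
    tfae_have 1 → 4 := hδ τ
    tfae_have 4 → 3 := hev τ
    tfae_have 3 → 2 := hinf τ
    tfae_have 2 → 1 := exponent_lt_of_infinite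
    tfae_finish
  · intro τ h
    obtain ⟨N₀, hN₀⟩ := hev τ (hδ τ (exponent_lt_of_infinite h))
    refine ⟨max N₀ 3, fun n hn => (hN₀ n (le_of_max_le_left hn)).trans_le ?_⟩
    have hn3 : 3 ≤ n := le_of_max_le_right hn
    have hn3' : (3 : ℝ) ≤ n := by exact_mod_cast hn3
    have hlog : 1 ≤ Real.log n := by
      rw [Real.le_log_iff_exp_le (by linarith)]
      have := Real.exp_one_lt_d9
      linarith
    have hpos : 0 ≤ (n : ℝ) ^ τ := by positivity
    exact le_mul_of_one_le_right hpos hlog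

end Pool.Agent.Results.MP_f57c03_lc.OneValueSuffices
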